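import Pool.Agent.BEK.Stmts

set_option autoImplicit false

/-!
# Squad BEK (MP_be01ff_an), row ZKA: radial eigenvalues of an annulus without resonances
-/

namespace Pool.Agent.BEK.H63

open Set Filter Topology MeasureTheory
open Pool.Agent.BEJ

theorem abs_shift (x g : ℝ) (k : ℤ) :
    |Real.sin (x + k * Real.pi) + g * Real.cos (x + k * Real.pi)| =
      |Real.sin x + g * Real.cos x| := by
  rw [Real.sin_add_int_mul_pi, Real.cos_add_int_mul_pi]
  have h : (-1 : ℝ) ^ k * Real.sin x + g * ((-1) ^ k * Real.cos x) =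
      (-1) ^ k * (Real.sin x + g * Real.cos x) := by ring
  rw [h, abs_mul]
  have h2 : |(-1 : ℝ) ^ k| = 1 := by
    rcases Int.even_or_odd k with hk | hk
    · rw [hk.neg_one_zpow, abs_one]
    · rw [hk.neg_one_zpow, abs_neg, abs_one]
  rw [h2, one_mul]

theorem sin_near {z : ℝ} (hz : |z| ≤ 1) : |Real.sin z - z| ≤ z ^ 2 := by
  have h := Real.sin_bound hz
  have h0 : 0 ≤ |z| := abs_nonneg z
  have h3 : |z ^ 3 / 6| = |z| ^ 3 / 6 := by
    rw [abs_div, abs_pow]
    norm_num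
  have h4 : |Real.sin z - z| ≤ |Real.sin z - (z - z ^ 3 / 6)| + |z ^ 3 / 6| := by
    have e : Real.sin z - z = (Real.sin z - (z - z ^ 3 / 6)) + -(z ^ 3 / 6) := by ring
    calc |Real.sin z - z| = |(Real.sin z - (z - z ^ 3 / 6)) + -(z ^ 3 / 6)| := by rw [← e]
      _ ≤ |Real.sin z - (z - z ^ 3 / 6)| + |-(z ^ 3 / 6)| := abs_add_le _ _
      _ = _ := by rw [abs_neg]
  have h5 : |z| ^ 3 ≤ |z| ^ 2 := by
    calc |z| ^ 3 = |z| ^ 2 * |z| := by ring
      _ ≤ |z| ^ 2 * 1 := by gcongr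
      _ = _ := by ring
  have h6 : |z| ^ 5 ≤ |z| ^ 2 :=
    pow_le_pow_of_le_one h0 hz (by norm_num)
  have h7 : |z| ^ 2 = z ^ 2 := sq_abs z
  have h8 : 0 ≤ |z| ^ 2 := by positivity
  rw [h3] at h4
  linarith

theorem eta_bound {g K s η : ℝ} (hg : 0 < g) (hK : 0 ≤ K) (hs : 1 ≤ s)
    (hη : |η| ≤ Real.pi / 2) (h : |Real.sin η + g / s * Real.cos η| ≤ K / s ^ 2) :
    |η| ≤ 2 * (K + g) / s := by
  have hs0 : 0 < s := by linarith
  have h1 := Real.mul_abs_le_abs_sin hη
  have h2 : |Real.sin η| ≤ |Real.sin η + g / s * Real.cos η| + |g / s * Real.cos η| := by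
    have e : Real.sin η = (Real.sin η + g / s * Real.cos η) + -(g / s * Real.cos η) := by ring
    calc |Real.sin η| = |(Real.sin η + g / s * Real.cos η) + -(g / s * Real.cos η)| := by
          rw [← e]
      _ ≤ _ := by
          refine le_trans (abs_add_le _ _) ?_
          rw [abs_neg]
  have h3 : |g / s * Real.cos η| ≤ g / s := by
    rw [abs_mul, abs_of_pos (div_pos hg hs0)]
    calc g / s * |Real.cos η| ≤ g / s * 1 := by
          gcongr
          exact Real.abs_cos_le_one η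
      _ = _ := mul_one _
  have h4 : K / s ^ 2 ≤ K / s := by
    apply div_le_div_of_nonneg_left hK hs0
    nlinarith
  have h5 : 2 / Real.pi * |η| ≤ (K + g) / s := by
    have : (K + g) / s = K / s + g / s := add_div _ _ _
    linarith
  have hpi := Real.pi_pos
  have hpi4 := Real.pi_le_four
  have h6 : |η| = Real.pi / 2 * (2 / Real.pi * |η|) := by
    field_simp
  have h7 : 0 ≤ (K + g) / s := by positivity
  calc |η| = Real.pi / 2 * (2 / Real.pi * |η|) := h6
    _ ≤ Real.pi / 2 * ((K + g) / s) := by gcongr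
    _ ≤ 2 * ((K + g) / s) := by
        apply mul_le_mul_of_nonneg_right _ h7
        linarith
    _ = _ := by ring

theorem refine_eta {g K z : ℝ} (hg : 0 ≤ g) (hz : |z| ≤ 1)
    (h : |Real.sin z + g * Real.cos z| ≤ K) : |z + g| ≤ K + z ^ 2 + g * z ^ 2 := by
  have h1 := sin_near hz
  have h2 : |g * (1 - Real.cos z)| ≤ g * z ^ 2 := by
    rw [abs_mul, abs_of_nonneg hg]
    apply mul_le_mul_of_nonneg_left _ hg
    have h3 := Real.one_sub_sq_div_two_le_cos (x := z)
    have h4 := Real.cos_le_one z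
    rw [abs_of_nonneg (by linarith)]
    nlinarith [sq_nonneg z]
  have e : z + g = (Real.sin z + g * Real.cos z) + -(Real.sin z - z) + g * (1 - Real.cos z) := by
    ring
  calc |z + g| = |(Real.sin z + g * Real.cos z) + -(Real.sin z - z) + g * (1 - Real.cos z)| := by
        rw [← e]
    _ ≤ |(Real.sin z + g * Real.cos z) + -(Real.sin z - z)| + |g * (1 - Real.cos z)| :=
        abs_add_le _ _
    _ ≤ |Real.sin z + g * Real.cos z| + |-(Real.sin z - z)| + |g * (1 - Real.cos z)| := by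
        gcongr
        exact abs_add_le _ _
    _ ≤ K + z ^ 2 + g * z ^ 2 := by
        rw [abs_neg]
        linarith

/-- No resonance for large `s`. -/
theorem no_res {g K L : ℝ} (hg : 0 < g) (hK : 0 ≤ K) (M : ℕ) :
    ∃ S1 : ℝ, 1 ≤ S1 ∧ ∀ s : ℝ, S1 ≤ s →
      |Real.sin (s * L) + g / s * Real.cos (s * L)| ≤ K / s ^ 2 → ∀ n : ℕ, 3 ≤ n → n ≤ M →
      ¬ |Real.sin (n * s * L) + g / (n * s) * Real.cos (n * s * L)| ≤ K / (n * s) ^ 2 := by
  set B : ℝ := 2 * (K + g) with hB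
  have hB0 : 0 < B := by positivity
  set W : ℝ := (K + (M : ℝ) ^ 2 * B ^ 2 + g * ((M : ℝ) ^ 2 * B ^ 2)) +
    (M : ℝ) * (K + B ^ 2 + g * B ^ 2) with hW
  have hW0 : 0 ≤ W := by positivity
  refine ⟨1 + M * B + W / (2 * g), ?_, ?_⟩
  · have : 0 ≤ W / (2 * g) := by positivity
    have : 0 ≤ (M : ℝ) * B := by positivity
    linarith
  intro s hs h1 n hn3 hnM h2
  have hWg : 0 ≤ W / (2 * g) := by positivity
  have hMB : 0 ≤ (M : ℝ) * B := by positivity
  have hs1 : 1 ≤ s := by linarith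
  have hs0 : 0 < s := by linarith
  have hn3' : (3 : ℝ) ≤ n := by exact_mod_cast hn3
  have hnM' : (n : ℝ) ≤ M := by exact_mod_cast hnM
  have hn0 : (0 : ℝ) < n := by linarith
  -- the nearest multiple of pi
  obtain ⟨k, η, hη, hθ⟩ : ∃ (k : ℤ) (η : ℝ), |η| ≤ Real.pi / 2 ∧ s * L = η + k * Real.pi := by
    have hpi := Real.pi_pos
    refine ⟨round (s * L / Real.pi), s * L - round (s * L / Real.pi) * Real.pi, ?_, by ring⟩
    have hr := abs_sub_round (s * L / Real.pi)
    have e : s * L - round (s * L / Real.pi) * Real.pi =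
        (s * L / Real.pi - round (s * L / Real.pi)) * Real.pi := by
      field_simp
    rw [e, abs_mul, abs_of_pos hpi]
    nlinarith
  rw [hθ, abs_shift] at h1
  have hnθ : (n : ℝ) * s * L = n * η + ((n * k : ℤ) : ℝ) * Real.pi := by
    push_cast
    rw [mul_assoc, hθ]
    ring
  rw [hnθ, abs_shift] at h2
  have hηB := eta_bound hg hK hs1 hη h1
  rw [← hB] at hηB
  have hnη : |(n : ℝ) * η| ≤ M * B / s := by
    rw [abs_mul, abs_of_pos hn0]
    calc (n : ℝ) * |η| ≤ M * (B / s) := by gcongr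
      _ = _ := by ring
  have hMB1 : (M : ℝ) * B / s ≤ 1 := by
    rw [div_le_one hs0]
    linarith
  have hη1 : |η| ≤ 1 := by
    have : B / s ≤ M * B / s := by
      gcongr
      have : (1 : ℝ) ≤ M := by linarith
      nlinarith
    linarith
  have r1 := refine_eta (div_nonneg hg.le hs0.le) hη1 h1
  have r2 := refine_eta (g := g / (n * s)) (by positivity) (hnη.trans hMB1) h2
  -- squares
  have q1 : η ^ 2 ≤ B ^ 2 / s ^ 2 := by
    rw [← sq_abs η, ← div_pow]
    exact pow_le_pow_left₀ (abs_nonneg _) hηB 2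
  have q2 : ((n : ℝ) * η) ^ 2 ≤ (M : ℝ) ^ 2 * B ^ 2 / s ^ 2 := by
    rw [← sq_abs ((n : ℝ) * η), ← mul_pow, ← div_pow]
    exact pow_le_pow_left₀ (abs_nonneg _) hnη 2
  have gs : g / s ≤ g := by
    rw [div_le_iff₀ hs0]
    nlinarith
  have gns : g / (n * s) ≤ g := by
    rw [div_le_iff₀ (by positivity)]
    have h1ns : 1 ≤ (n : ℝ) * s := by nlinarith
    exact le_mul_of_one_le_right hg.le h1ns
  have ks : K / (n * s) ^ 2 ≤ K / s ^ 2 := by
    apply div_le_div_of_nonneg_left hK (by positivity)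
    have : s ≤ n * s := by nlinarith
    exact pow_le_pow_left₀ hs0.le this 2
  have p1 : g / s * η ^ 2 ≤ g * (B ^ 2 / s ^ 2) :=
    mul_le_mul gs q1 (sq_nonneg _) hg.le
  have p2 : g / (n * s) * ((n : ℝ) * η) ^ 2 ≤ g * ((M : ℝ) ^ 2 * B ^ 2 / s ^ 2) :=
    mul_le_mul gns q2 (sq_nonneg _) hg.le
  have r1' : |η + g / s| ≤ (K + B ^ 2 + g * B ^ 2) / s ^ 2 := by
    refine r1.trans ?_
    have : (K + B ^ 2 + g * B ^ 2) / s ^ 2 = K / s ^ 2 + B ^ 2 / s ^ 2 + g * (B ^ 2 / s ^ 2) := by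
      ring
    linarith
  have r2' : |(n : ℝ) * η + g / (n * s)| ≤
      (K + (M : ℝ) ^ 2 * B ^ 2 + g * ((M : ℝ) ^ 2 * B ^ 2)) / s ^ 2 := by
    refine r2.trans ?_
    have : (K + (M : ℝ) ^ 2 * B ^ 2 + g * ((M : ℝ) ^ 2 * B ^ 2)) / s ^ 2 =
        K / s ^ 2 + (M : ℝ) ^ 2 * B ^ 2 / s ^ 2 + g * ((M : ℝ) ^ 2 * B ^ 2 / s ^ 2) := by
      ring
    linarith
  have r3 : (n : ℝ) * |η + g / s| ≤ M * ((K + B ^ 2 + g * B ^ 2) / s ^ 2) :=
    mul_le_mul hnM' r1' (abs_nonneg _) (by linarith)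
  have e : (n : ℝ) * (η + g / s) - (n * η + g / (n * s)) = g / s * (n - 1 / n) := by
    field_simp
    ring
  have r4 : g / s * ((n : ℝ) - 1 / n) ≤ W / s ^ 2 := by
    rw [← e]
    have a1 : (n : ℝ) * (η + g / s) ≤ n * |η + g / s| :=
      mul_le_mul_of_nonneg_left (le_abs_self _) hn0.le
    have a2 : -((n : ℝ) * η + g / (n * s)) ≤ |(n : ℝ) * η + g / (n * s)| := neg_le_abs _
    have a3 : W / s ^ 2 = (K + (M : ℝ) ^ 2 * B ^ 2 + g * ((M : ℝ) ^ 2 * B ^ 2)) / s ^ 2 +
        M * ((K + B ^ 2 + g * B ^ 2) / s ^ 2) := by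
      rw [hW]
      ring
    linarith
  have r5 : (2 : ℝ) ≤ n - 1 / n := by
    have : 1 / (n : ℝ) ≤ 1 := by
      rw [div_le_one hn0]
      linarith
    linarith
  have r6 : g / s * 2 ≤ W / s ^ 2 :=
    le_trans (mul_le_mul_of_nonneg_left r5 (by positivity)) r4
  have r7 : 2 * g * s ≤ W := by
    have h9 := mul_le_mul_of_nonneg_right r6 (by positivity : (0 : ℝ) ≤ s ^ 2)
    have e1 : g / s * 2 * s ^ 2 = 2 * g * s := by
      field_simp
    have e2 : W / s ^ 2 * s ^ 2 = W := by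
      field_simp
    rw [e1, e2] at h9
    exact h9
  have r8 : s ≤ W / (2 * g) := by
    rw [le_div_iff₀ (by positivity)]
    linarith
  linarith

/-- The imaginary part of WPR. -/
theorem dc_near (wpr : WprStmt) {a b : ℝ} (ha : 0 < a) (hab : a < b) :
    ∃ K S0 : ℝ, 0 ≤ K ∧ 1 ≤ S0 ∧ ∀ s : ℝ, S0 ≤ s → ∃ P : ℝ, 0 < P ∧
      |P * Dc a b s - (Real.sin (s * (b - a)) + (1 / a - 1 / b) / 8 / s *
        Real.cos (s * (b - a)))| ≤ K / s ^ 2 := by
  obtain ⟨C, X, hC, hX, h, -⟩ := wpr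
  have hb : 0 < b := ha.trans hab
  refine ⟨C / a ^ 2 + C / b ^ 2, 1 + X / a, by positivity, ?_, ?_⟩
  · have : 0 ≤ X / a := by positivity
    linarith
  intro s hs
  have hXa : 0 ≤ X / a := by positivity
  have hs0 : 0 < s := by linarith
  have hx : X ≤ s * a := by
    have : X / a ≤ s := by linarith
    rwa [div_le_iff₀ ha] at this
  have hy : X ≤ s * b := hx.trans (by gcongr)
  have h1 := h (s * a) (s * b) hx hy
  refine ⟨4 * Real.sqrt (s * a * (s * b)) / Real.pi, ?_, ?_⟩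
  · have : 0 < Real.sqrt (s * a * (s * b)) := Real.sqrt_pos.2 (by positivity)
    have := Real.pi_pos
    positivity
  have h2 := (Complex.abs_im_le_norm _).trans h1
  have e1 : (((4 * Real.sqrt (s * a * (s * b)) / Real.pi : ℝ) : ℂ) *
      ((starRingEnd ℂ) (HH (s * a)) * HH (s * b)) -
      Complex.exp ((s * b - s * a : ℝ) * Complex.I) *
        (1 + Complex.I * (1 / (8 * (s * a)) - 1 / (8 * (s * b)) : ℝ))).im =
      4 * Real.sqrt (s * a * (s * b)) / Real.pi * Dc a b s -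
      (Real.sin (s * (b - a)) + (1 / a - 1 / b) / 8 / s * Real.cos (s * (b - a))) := by
    rw [Complex.sub_im, Complex.im_ofReal_mul, Complex.mul_im (Complex.exp _),
      Complex.exp_ofReal_mul_I_re,
      Complex.exp_ofReal_mul_I_im]
    have e2 : (1 + Complex.I * ((1 / (8 * (s * a)) - 1 / (8 * (s * b)) : ℝ) : ℂ)).re = 1 := by
      simp
    have e3 : (1 + Complex.I * ((1 / (8 * (s * a)) - 1 / (8 * (s * b)) : ℝ) : ℂ)).im =
        (1 / a - 1 / b) / 8 / s := by
      rw [Complex.add_im, Complex.one_im, Complex.mul_im, Complex.I_re, Complex.I_im,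
        Complex.ofReal_re, Complex.ofReal_im]
      field_simp
      ring
    rw [e2, e3]
    have e4 : s * b - s * a = s * (b - a) := by ring
    rw [e4]
    unfold Dc
    ring
  rw [e1] at h2
  refine h2.trans (le_of_eq ?_)
  field_simp

theorem hh_cont (qde : QdeStmt) {x : ℝ} (hx : 0 < x) : ContinuousAt HH x := by
  have h1 : ContinuousAt (QQ 0) x := (qde.2.1 0 x hx).continuousAt
  have h2 : ContinuousAt (fun x : ℝ => Complex.exp (x * Complex.I)) x := by
    fun_prop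
  exact h2.mul h1

theorem dc_cont (qde : QdeStmt) {a b s : ℝ} (ha : 0 < a) (hb : 0 < b) (hs : 0 < s) :
    ContinuousAt (Dc a b) s := by
  have h1 : ContinuousAt (fun s : ℝ => HH (s * a)) s :=
    ContinuousAt.comp (f := fun s : ℝ => s * a) (g := HH) (hh_cont qde (mul_pos hs ha))
      (by fun_prop)
  have h2 : ContinuousAt (fun s : ℝ => HH (s * b)) s :=
    ContinuousAt.comp (f := fun s : ℝ => s * b) (g := HH) (hh_cont qde (mul_pos hs hb))
      (by fun_prop)
  have h3 : ContinuousAt (fun s : ℝ => (starRingEnd ℂ) (HH (s * a))) s :=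
    Complex.continuous_conj.continuousAt.comp h1
  exact Complex.continuous_im.continuousAt.comp (h3.mul h2)

/-- ZKA. -/
theorem zka (qde : QdeStmt) (wpr : WprStmt) : ZkaStmt := by
  intro a b S M ha hab
  have hb : 0 < b := ha.trans hab
  have hL : 0 < b - a := by linarith
  obtain ⟨K, S0, hK, hS0, hnear⟩ := dc_near wpr ha hab
  have hg : 0 < (1 / a - 1 / b) / 8 := by
    have : 1 / b < 1 / a := one_div_lt_one_div_of_lt ha hab
    linarith
  obtain ⟨S1, hS1, hres⟩ := no_res (L := b - a) hg hK M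
  -- a large integer
  obtain ⟨k, hk⟩ := exists_nat_gt ((S0 + S1 + |S| + K + 1) * (b - a))
  have hpi := Real.pi_gt_three
  set s1 : ℝ := (Real.pi / 2 + k * (2 * Real.pi)) / (b - a) with hs1
  set s2 : ℝ := (Real.pi / 2 + Real.pi + k * (2 * Real.pi)) / (b - a) with hs2
  have hbig : S0 + S1 + |S| + K + 1 ≤ s1 := by
    rw [hs1, le_div_iff₀ hL]
    have : (0 : ℝ) ≤ k := Nat.cast_nonneg k
    nlinarith
  have h12 : s1 ≤ s2 := by
    rw [hs1, hs2]
    gcongr
    linarith
  have habs := abs_nonneg S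
  have hlt : ∀ s : ℝ, s1 ≤ s → K / s ^ 2 < 1 := by
    intro s hs
    have h1 : K + 1 ≤ s := by linarith
    have h2 : 0 < s := by linarith
    rw [div_lt_one (by positivity)]
    nlinarith
  have e1 : s1 * (b - a) = Real.pi / 2 + k * (2 * Real.pi) := by
    rw [hs1]
    field_simp
  have e2 : s2 * (b - a) = Real.pi / 2 + Real.pi + k * (2 * Real.pi) := by
    rw [hs2]
    field_simp
  have pos1 : 0 < Dc a b s1 := by
    obtain ⟨P, hP, h⟩ := hnear s1 (by linarith)
    rw [e1, Real.sin_add_nat_mul_two_pi, Real.cos_add_nat_mul_two_pi, Real.sin_pi_div_two,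
      Real.cos_pi_div_two, mul_zero, add_zero] at h
    have h2 := hlt s1 le_rfl
    have h3 := (abs_le.1 h).1
    have h4 : 0 < P * Dc a b s1 := by linarith
    exact (mul_pos_iff_of_pos_left hP).1 h4
  have neg2 : Dc a b s2 < 0 := by
    obtain ⟨P, hP, h⟩ := hnear s2 (by linarith)
    rw [e2, Real.sin_add_nat_mul_two_pi, Real.cos_add_nat_mul_two_pi, Real.sin_add_pi,
      Real.cos_add_pi, Real.sin_pi_div_two, Real.cos_pi_div_two, neg_zero, mul_zero,
      add_zero] at h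
    have h2 := hlt s2 h12
    have h3 := (abs_le.1 h).2
    have h4 : P * Dc a b s2 < 0 := by linarith
    exact (pos_iff_neg_of_mul_neg h4).1 hP
  have hcont : ContinuousOn (Dc a b) (Icc s1 s2) := fun s hs =>
    (dc_cont qde ha hb (by linarith [hs.1])).continuousWithinAt
  obtain ⟨s, hs, hz⟩ := intermediate_value_Icc' h12 hcont
    (show (0 : ℝ) ∈ Icc (Dc a b s2) (Dc a b s1) from ⟨neg2.le, pos1.le⟩)
  have hsS : S ≤ s := by
    have := le_abs_self S
    linarith [hs.1]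
  refine ⟨s, hsS, by linarith [hs.1], hz, ?_⟩
  intro n _ hn3 hnM hzn
  have hzero : ∀ s' : ℝ, S0 ≤ s' → Dc a b s' = 0 →
      |Real.sin (s' * (b - a)) + (1 / a - 1 / b) / 8 / s' * Real.cos (s' * (b - a))| ≤
        K / s' ^ 2 := by
    intro s' hs' h0
    obtain ⟨P, _, h⟩ := hnear s' hs'
    rw [h0, mul_zero, zero_sub, abs_neg] at h
    exact h
  have hn3' : (3 : ℝ) ≤ n := by exact_mod_cast hn3
  have hs0 : 0 < s := by linarith [hs.1]
  exact hres s (by linarith [hs.1]) (hzero s (by linarith [hs.1]) hz) n hn3 hnM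
    (hzero (n * s) (by nlinarith [hs.1]) hzn)

end Pool.Agent.BEK.H63
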